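import Pool.Agent.KS6_60.FD.Final

/-!
# Finitely dependent processes whose configurations have at most one independent period

The field is the curl of the lifts to `[-1/2, 1/2)` of the differences of independent uniform
angles, in a magnetic field whose strengths in the coordinate planes are, together with `1`,
linearly independent over `ℚ`. A configuration of the support with two periods `p`, `q` gives a
bounded real cochain on `ℤ^d` whose flux through the parallelogram with sides `p`, `q` has to
vanish by the discrete Stokes theorem; this flux is an integer plus a rational combination of the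
strengths whose coefficients are the minors of `(p, q)`.
-/

set_option autoImplicit false

open MeasureTheory ProbabilityTheory

namespace Pool.Agent.Results.MP_5c5aaa_pr.CyclicStabilisers

open Pool.Agent.KS6_60.FD

/-- For every dimension `d` there is a random field on `ℤ^d` with a finite alphabet (one of four
letters for every pair of coordinate directions, so four letters if `d = 2`) which is
shift-invariant, whose restrictions to any two sets at sup-distance at least `2` are independent,
and such that for every configuration `x` of its (nonempty) support
* any two periods of `x` are parallel, and the group of all periods of `x` is cyclic;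
* if `d ≥ 2` then `x` is not periodic (the group of its periods has infinite index);
* on every `N × N` square parallel to a coordinate plane the sum of the corresponding letters
  differs from `c N²` by at most `2 N`, with an irrational number `c` depending only on the
  plane. -/
theorem result (d : ℕ) :
    ∃ (Ω : Type) (_ : MeasurableSpace Ω) (P : Measure Ω) (_ : IsProbabilityMeasure P)
      (X : (Fin d → ℤ) → Ω → ({p : Fin d × Fin d // p.1 < p.2} → Fin 4)),
      (∀ v, Measurable (X v)) ∧ ShiftInvariant P X ∧ DependentRange 2 P X ∧
      (support P X).Nonempty ∧
      (∀ x ∈ support P X,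
        (∀ p ∈ stab x, ∀ q ∈ stab x, ∀ i j, p i * q j = p j * q i) ∧
        IsAddCyclic (stab x) ∧ (2 ≤ d → ¬ IsPeriodic x)) ∧
      ∃ c : {p : Fin d × Fin d // p.1 < p.2} → ℝ, (∀ p, Irrational (c p)) ∧
        ∀ x ∈ support P X, ∀ p v, ∀ N : ℕ,
          |∑ s ∈ Finset.range N, ∑ t ∈ Finset.range N,
            (((x (v + s • Pi.single p.1.1 1 + t • Pi.single p.1.2 1) p : ℕ) : ℝ) - c p)|
              ≤ 2 * N := by
  obtain ⟨θ, h0, h1, hθ⟩ := exists_flux d
  refine ⟨(Fin d → ℤ) → UnitAddCircle, inferInstance, Pool.Agent.KS6_60.FD.P, inferInstance, X θ, measurable_X θ,
    shiftInvariant_X θ, dependentRange_X θ, support_nonempty θ, fun x hx => ?_,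
    fun p => 2 - θ p.1.1 p.1.2, fun p => ?_, fun x hx p v N => squares h0 h1 hx p v N⟩
  · have hpar : ∀ p ∈ stab x, ∀ q ∈ stab x, ∀ i j, p i * q j = p j * q i :=
      fun p hp q hq i j => parallel h0 h1 hθ hx hp hq i j
    refine ⟨hpar, cyclic_of_parallel _ hpar, fun hd hper => ?_⟩
    have hper' : (stab x).FiniteIndex := hper
    have hN : ∀ v, (stab x).index • v ∈ stab x :=
      fun v => AddSubgroup.nsmul_index_mem _ v
    have h2 := hpar _ (hN (e ⟨0, by omega⟩)) _ (hN (e ⟨1, by omega⟩)) ⟨0, by omega⟩ ⟨1, by omega⟩
    simp [e] at h2
    exact hper'.index_ne_zero h2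
  · have := (hθ.irrational p.1.1 p.1.2).natCast_sub 2
    exact_mod_cast this

end Pool.Agent.Results.MP_5c5aaa_pr.CyclicStabilisers
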